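import Pool.Agent.Lib.MP_8f66f0_al_ZFM.Clm
import Pool.Agent.Lib.MP_8f66f0_al_ZF.Spec

/-! Project ZERO, part F: the marker lemma. -/

set_option autoImplicit false

namespace Pool.Agent.ZFM

open Pool.Agent.ZF

open MeasureTheory Metric Set

variable {X : Type} [PseudoMetricSpace X] {Φ : ℝ → X → X} {n : ℝ} {s : ℕ}

/-- General position of finitely many more markers. -/
theorem gp_adds (hΦ : PFl X Φ) (hn : 0 ≤ n) {S : Set (Mk X)} (hfin : S.Finite)
    (hS : GP Φ n s S) (k : ℕ) (P : ℕ → Set X) {r : ℝ} (hr : 0 < r) (j : ℕ) (hj : j ≤ s) :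
    ∃ ρ : ℕ → ℝ, (∀ l, 0 < ρ l ∧ ρ l < r) ∧
      GP Φ n s (S ∪ (fun l => (⟨k, l, P l, ρ l⟩ : Mk X)) '' {l | l < j}) := by
  induction j with
  | zero =>
    refine ⟨fun _ => r / 2, fun _ => ⟨by linarith, by linarith⟩, gpmono hS ?_⟩
    rintro μ (h | ⟨l, hl, _⟩)
    · exact h
    · exact absurd hl (Nat.not_lt_zero l)
  | succ j ih =>
    obtain ⟨ρ, h1, h2⟩ := ih (by omega)
    obtain ⟨ρ', h3, h4, h5⟩ := gp_add hΦ hn (hfin.union ((Set.finite_lt_nat j).image _)) h2 k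
      (show j < s by omega) (P j) hr
    refine ⟨Function.update ρ j ρ', ?_, gpmono h5 ?_⟩
    · intro l
      by_cases hl : l = j
      · rw [hl, Function.update_self]
        exact ⟨h3, h4⟩
      · rw [Function.update_of_ne hl]
        exact h1 l
    · rintro μ (h | ⟨l, hl, rfl⟩)
      · exact Or.inr (Or.inl h)
      · change l < j + 1 at hl
        by_cases hlj : l = j
        · left
          simp only [hlj, Function.update_self]
        · right
          right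
          refine ⟨l, by change l < j; omega, ?_⟩
          simp only [Function.update_of_ne hlj]

theorem new_old (hΦ : PFl X Φ) (hn : 0 ≤ n) {K : ℝ}
    (hK : ∀ t c c', |t| ≤ LL s n → dist (Φ t c) (Φ t c') ≤ K * dist c c') (hK1 : 1 ≤ K) {l : ℕ}
    (hl : l < s) {P : Set X} (hP : IsCompact P) (hP0 : P.Nonempty) {κ ρ : ℝ} (hρ : K * ρ < κ)
    {ν : Mk X} (hν : ν.l < s) (h1 : ∀ c ∈ P, ν.ρ + κ ≤ ww Φ n ν.l ν.P l c) {c : X} {t : ℝ}
    (ht : |t| ≤ n) (h2 : vv Φ n l P c ≤ ρ) (h3 : vv Φ n ν.l ν.P (Φ t c) ≤ ν.ρ) : False := by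
  obtain ⟨c₂, hc₂, h4⟩ := hP.exists_infDist_eq_dist hP0 (Φ (-(tt n l)) c)
  have h5 : dist (Φ (-(tt n l)) c) c₂ ≤ ρ := by
    rw [← h4]
    exact h2
  have hm := tt_add_mem (l := l) ht
  have h6 := ww_le (Φ := Φ) ν.l ν.P l c₂ hm
  have h7 := vv_dist hΦ hK ν.l ν.P (Φ (-(tt n l)) c) c₂ (blk_tt hn hν hl hm)
  rw [← hΦ.add, show tt n l + t + -(tt n l) = t by ring] at h7
  have h8 := h1 c₂ hc₂
  have h9 : K * dist (Φ (-(tt n l)) c) c₂ ≤ K * ρ :=
    mul_le_mul_of_nonneg_left h5 (by linarith)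
  rw [abs_le] at h7
  linarith [h7.1]

theorem marker_step (hΦ : PFl X Φ) (hn : 1 ≤ n) {Q : ℕ → Set X} {θ : ℕ → ℝ} {η : ℝ}
    (hη : 0 < η) {m : ℕ} {S : Set (Mk X)} (hQ : ∀ k < m + 1, HQ Φ n s (Q k) (θ k) η)
    (hS : Gd Φ n s Q θ η m S) : ∃ S', Gd Φ n s Q θ η (m + 1) S' := by
  have hn0 : 0 ≤ n := by linarith
  have hQm := hQ m (Nat.lt_succ_self m)
  obtain ⟨κ, hκ0, hκ⟩ := margin hΦ hn (fun k hk => hQ k (by omega)) hS hQm.cpt
  obtain ⟨K, hK1, hK⟩ := hΦ.lip (LL s n)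
  set P : ℕ → Set X := fun l => Q m ∩ {c | ∀ μ ∈ S, μ.ρ + κ ≤ ww Φ n μ.l μ.P l c} with hP
  have hPc : ∀ l < s, IsCompact (P l) := by
    intro l hl
    refine hQm.cpt.inter_right ?_
    have : {c | ∀ μ ∈ S, μ.ρ + κ ≤ ww Φ n μ.l μ.P l c} =
        ⋂ μ ∈ S, {c | μ.ρ + κ ≤ ww Φ n μ.l μ.P l c} := by
      ext c
      simp
    rw [this]
    exact isClosed_biInter fun μ hμ =>
      isClosed_le continuous_const (ww_cont hΦ hn0 (hS.llt μ hμ) hl _)
  have hr : 0 < min η (κ / K) := lt_min hη (by positivity)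
  obtain ⟨ρ, hρ, hgp⟩ := gp_adds hΦ hn0 hS.fin hS.gp m P hr s le_rfl
  have hρη : ∀ l, ρ l < η := fun l => (hρ l).2.trans_le (min_le_left _ _)
  have hρκ : ∀ l, K * ρ l < κ := by
    intro l
    have h1 := (hρ l).2.trans_le (min_le_right _ _)
    rw [lt_div_iff₀ (by linarith)] at h1
    linarith
  set N : Set (Mk X) := (fun l => (⟨m, l, P l, ρ l⟩ : Mk X)) '' {l | l < s ∧ (P l).Nonempty}
    with hN
  have hNfin : N.Finite := ((Set.finite_lt_nat s).subset fun l hl => hl.1).image _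
  refine ⟨S ∪ N, ?_⟩
  constructor
  · exact hS.fin.union hNfin
  · rintro μ (h | ⟨l, hl, rfl⟩)
    · exact (hS.klt μ h).trans (Nat.lt_succ_self m)
    · exact Nat.lt_succ_self m
  · rintro μ (h | ⟨l, hl, rfl⟩)
    · exact hS.llt μ h
    · exact hl.1
  · rintro μ (h | ⟨l, hl, rfl⟩)
    · exact hS.sub μ h
    · exact Set.inter_subset_left
  · rintro μ (h | ⟨l, hl, rfl⟩)
    · exact hS.ne μ h
    · exact hl.2
  · rintro μ (h | ⟨l, hl, rfl⟩)
    · exact hS.pos μ h
    · exact (hρ l).1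
  · rintro μ (h | ⟨l, hl, rfl⟩)
    · exact hS.lt μ h
    · exact hρη l
  · rintro μ (hμ | ⟨l, hl, rfl⟩) ν (hν | ⟨l', hl', rfl⟩) c t ht h1 h2
    · exact hS.sep μ hμ ν hν c t ht h1 h2
    · exfalso
      refine new_old hΦ hn0 hK hK1 hl'.1 (hPc l' hl'.1) hl'.2 (hρκ l') (hS.llt μ hμ)
        (fun c hc => hc.2 μ hμ) (c := Φ t c) (t := -t) (by rw [abs_neg]; exact ht) h2 ?_
      rw [pback hΦ]
      exact h1
    · exfalso
      exact new_old hΦ hn0 hK hK1 hl.1 (hPc l hl.1) hl.2 (hρκ l) (hS.llt ν hν)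
        (fun c hc => hc.2 ν hν) ht h1 h2
    · have h3 : infDist (Φ (-(tt n l)) c) (Q m) ≤ η := by
        have := vv_le_Q hΦ (Set.inter_subset_left : P l ⊆ Q m) hl.2 (l := l) (c := c) (t := 0)
          (ρ := ρ l) (by rw [hΦ.zero]; exact h1) (hρη l).le
        rw [zero_sub] at this
        exact this
      have h4 : infDist (Φ (t + tt n l - tt n l') (Φ (-(tt n l)) c)) (Q m) ≤ η := by
        rw [← hΦ.add, show t + tt n l - tt n l' + -(tt n l) = t - tt n l' by ring]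
        exact vv_le_Q hΦ (Set.inter_subset_left : P l' ⊆ Q m) hl'.2 h2 (hρη l').le
      have a1 := tt_lo (l := l) hn0
      have a2 := tt_hi hn0 hl.1
      have a3 := tt_lo (l := l') hn0
      have a4 := tt_hi hn0 hl'.1
      have a5 := WW_ge (s := s) hn0
      have a6 := abs_le.1 ht
      have h5 : |t + tt n l - tt n l'| ≤ WW s n := by
        rw [abs_le]
        constructor <;> linarith
      have h6 := hQm.nr _ _ h5 h3 h4
      have hle := hQm.le
      by_cases hll : l = l'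
      · subst hll
        rw [add_sub_cancel_right] at h6
        exact ⟨rfl, h6⟩
      · exfalso
        have h7 := tt_far hn0 hll
        have h8 : |tt n l - tt n l'| ≤ |t + tt n l - tt n l'| + |t| := by
          have := abs_sub (t + tt n l - tt n l') t
          rw [show t + tt n l - tt n l' - t = tt n l - tt n l' by ring] at this
          exact this
        linarith
  · refine gpmono hgp ?_
    rintro μ (h | ⟨l, hl, rfl⟩)
    · exact Or.inl h
    · exact Or.inr ⟨l, hl.1, rfl⟩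
  · intro k hk c hc
    by_cases hkm : k < m
    · obtain ⟨μ, hμ, t, ht⟩ := hS.cov k hkm c hc
      exact ⟨μ, Or.inl hμ, t, ht⟩
    · have hkm' : k = m := by omega
      subst hkm'
      by_cases hall : ∀ μ ∈ S, ∀ l < s, μ.ρ ≤ ww Φ n μ.l μ.P l c
      · obtain ⟨l, hl, h⟩ := hκ c hc hall
        have hcP : c ∈ P l := ⟨hc, h⟩
        refine ⟨⟨k, l, P l, ρ l⟩, Or.inr ⟨l, ⟨hl, ⟨c, hcP⟩⟩, rfl⟩, tt n l, ?_, ?_, ?_⟩
        · have := tt_lo (l := l) hn0
          linarith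
        · have := tt_hi hn0 hl
          linarith
        · rw [vv_flow hΦ, sub_self, hΦ.zero, infDist_zero_of_mem hcP]
          exact (hρ l).1
      · push Not at hall
        obtain ⟨μ, hμ, l, hl, h⟩ := hall
        obtain ⟨t, ht, h1⟩ := ww_ex hΦ hn0 μ.l μ.P l c
        refine ⟨μ, Or.inl hμ, t, ?_, ?_, ?_⟩
        · have := blk_lo hn0 ht
          linarith
        · have := blk_hi hn0 hl ht
          linarith
        · rw [h1]
          exact h

/-- **The marker lemma.** -/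
theorem marker_lemma (hΦ : PFl X Φ) (hn : 1 ≤ n)
    (hX : NullD (fun x y : X => dist x y) s Set.univ) {Q : ℕ → Set X} {θ : ℕ → ℝ} {η : ℝ}
    (hη : 0 < η) (m : ℕ) (hQ : ∀ k < m, HQ Φ n s (Q k) (θ k) η) :
    ∃ S, Gd Φ n s Q θ η m S := by
  induction m with
  | zero =>
    refine ⟨∅, Set.finite_empty, ?_, ?_, ?_, ?_, ?_, ?_, ?_, ?_, ?_⟩
    · exact fun μ hμ => absurd hμ (Set.notMem_empty μ)
    · exact fun μ hμ => absurd hμ (Set.notMem_empty μ)
    · exact fun μ hμ => absurd hμ (Set.notMem_empty μ)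
    · exact fun μ hμ => absurd hμ (Set.notMem_empty μ)
    · exact fun μ hμ => absurd hμ (Set.notMem_empty μ)
    · exact fun μ hμ => absurd hμ (Set.notMem_empty μ)
    · exact fun μ hμ => absurd hμ (Set.notMem_empty μ)
    · intro J h1 _ _ _
      have hJ : J = ∅ := by
        rw [Finset.eq_empty_iff_forall_notMem]
        exact fun x hx => h1 x hx
      subst hJ
      rw [Finset.card_empty, Nat.sub_zero]
      exact nullD_mono (fun _ _ => le_rfl) hX (Set.subset_univ _)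
    · exact fun k hk => absurd hk (Nat.not_lt_zero k)
  | succ m ih =>
    obtain ⟨S, hS⟩ := ih fun k hk => hQ k (by omega)
    exact marker_step hΦ hn hη hQ hS

theorem t_Mrk : S_Mrk := fun _ _ _ hΦ _ hn _ hX _ _ _ hη m hQ =>
  marker_lemma hΦ hn hX hη m hQ

end Pool.Agent.ZFM
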