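import Pool.Agent.Lib.MP_8f66f0_al_ZFM.Ww

/-! Project ZERO, part F (marker lemma): the free block, the margin, general position of one more
marker. -/

set_option autoImplicit false

namespace Pool.Agent.ZFM

open Pool.Agent.ZF

open MeasureTheory Metric Set

variable {X : Type} [PseudoMetricSpace X] {Φ : ℝ → X → X} {n : ℝ} {s : ℕ}

theorem WW_ge (hn : 0 ≤ n) : LL s n + n ≤ WW s n := by
  unfold WW
  have := LL_nonneg (s := s) hn
  linarith

theorem vv_le_Q (hΦ : PFl X Φ) {Q P : Set X} (hPQ : P ⊆ Q) (hP : P.Nonempty) {l : ℕ} {c : X}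
    {t ρ η : ℝ} (h : vv Φ n l P (Φ t c) ≤ ρ) (hρ : ρ ≤ η) :
    infDist (Φ (t - tt n l) c) Q ≤ η := by
  rw [vv_flow hΦ] at h
  exact (infDist_le_infDist_of_subset hPQ hP).trans (h.trans hρ)

/-- There is a free block. -/
theorem free_block (hΦ : PFl X Φ) (hn : 1 ≤ n) {Q : ℕ → Set X} {θ : ℕ → ℝ} {η : ℝ} {m : ℕ}
    {S : Set (Mk X)} (hQ : ∀ k < m, HQ Φ n s (Q k) (θ k) η) (hS : Gd Φ n s Q θ η m S) {c : X}
    (hc : ∀ μ ∈ S, ∀ l < s, μ.ρ ≤ ww Φ n μ.l μ.P l c) :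
    ∃ l < s, ∀ μ ∈ S, μ.ρ < ww Φ n μ.l μ.P l c := by
  classical
  have hn0 : 0 ≤ n := by linarith
  by_contra hcon
  push Not at hcon
  have : Nonempty (Mk X) := ⟨⟨0, 0, ∅, 0⟩⟩
  choose! μ hμ1 hμ2 using hcon
  have hμ3 : ∀ l < s, ww Φ n (μ l).l (μ l).P l c = (μ l).ρ := fun l hl =>
    le_antisymm (hμ2 l hl) (hc _ (hμ1 l hl) l hl)
  have hinj : ∀ l < s, ∀ l' < s, μ l = μ l' → l = l' := by
    intro l hl l' hl' h
    by_contra hne
    obtain ⟨t, ht, h1⟩ := ww_ex hΦ hn0 (μ l).l (μ l).P l c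
    obtain ⟨t', ht', h2⟩ := ww_ex hΦ hn0 (μ l).l (μ l).P l' c
    rw [hμ3 l hl] at h1
    rw [h, hμ3 l' hl', ← h] at h2
    have hk := hS.klt _ (hμ1 l hl)
    have hq := hQ _ hk
    have h3 := vv_le_Q hΦ (hS.sub _ (hμ1 l hl)) (hS.ne _ (hμ1 l hl)) h1.le
      (hS.lt _ (hμ1 l hl)).le
    have h4 := vv_le_Q hΦ (hS.sub _ (hμ1 l hl)) (hS.ne _ (hμ1 l hl)) h2.le
      (hS.lt _ (hμ1 l hl)).le
    have h5 : Φ (t' - tt n (μ l).l) c = Φ (t' - t) (Φ (t - tt n (μ l).l) c) := by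
      rw [← hΦ.add]
      congr 1
      ring
    rw [h5] at h4
    have b1 := blk_lo hn0 ht
    have b2 := blk_hi hn0 hl ht
    have b3 := blk_lo hn0 ht'
    have b4 := blk_hi hn0 hl' ht'
    have b5 := WW_ge (s := s) hn0
    have h6 : |t' - t| ≤ WW s n := by
      rw [abs_le]
      constructor <;> linarith
    have h7 := hq.nr _ _ h6 h3 h4
    have h8 := blk_far hn0 (Ne.symm hne) ht' ht
    have h9 := hq.le
    linarith
  set J : Finset (Mk X × ℕ) := (Finset.range s).image fun l => (μ l, l) with hJ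
  have hcard : J.card = s := by
    rw [hJ, Finset.card_image_of_injOn, Finset.card_range]
    intro a _ b _ hab
    exact (Prod.mk.injEq _ _ _ _ ▸ hab).2
  have h1 : ∀ x ∈ J, ∃ l < s, x = (μ l, l) := by
    intro x hx
    rw [hJ, Finset.mem_image] at hx
    obtain ⟨l, hl, rfl⟩ := hx
    exact ⟨l, Finset.mem_range.1 hl, rfl⟩
  have h2 := hS.gp J (by
      intro x hx
      obtain ⟨l, hl, rfl⟩ := h1 x hx
      exact hμ1 l hl) (by
      intro x hx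
      obtain ⟨l, hl, rfl⟩ := h1 x hx
      exact hl) (by
      intro x hx y hy hxy
      obtain ⟨l, hl, rfl⟩ := h1 x hx
      obtain ⟨l', hl', rfl⟩ := h1 y hy
      have := hinj l hl l' hl' hxy
      rw [this]) hcard.le
  rw [hcard, Nat.sub_self] at h2
  change {c | ∀ x ∈ J, ww Φ n x.1.l x.1.P x.2 c = x.1.ρ} = ∅ at h2
  have h3 : c ∈ {c | ∀ x ∈ J, ww Φ n x.1.l x.1.P x.2 c = x.1.ρ} := by
    intro x hx
    obtain ⟨l, hl, rfl⟩ := h1 x hx
    exact hμ3 l hl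
  rw [h2] at h3
  exact h3

theorem ww_cont (hΦ : PFl X Φ) (hn : 0 ≤ n) {l l' : ℕ} (hl : l < s) (hl' : l' < s) (P : Set X) :
    Continuous fun c => ww Φ n l P l' c := by
  obtain ⟨κ, hκ1, hκ⟩ := hΦ.lip (LL s n)
  have : LipschitzWith ⟨κ, by linarith⟩ fun c => ww Φ n l P l' c :=
    LipschitzWith.of_dist_le_mul fun c c' => by
      rw [Real.dist_eq]
      exact ww_dist hΦ hn hκ hl hl' P c c'
  exact this.continuous

/-- There is a uniform margin. -/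
theorem margin (hΦ : PFl X Φ) (hn : 1 ≤ n) {Q : ℕ → Set X} {θ : ℕ → ℝ} {η : ℝ} {m : ℕ}
    {S : Set (Mk X)} (hQ : ∀ k < m, HQ Φ n s (Q k) (θ k) η) (hS : Gd Φ n s Q θ η m S) {R : Set X}
    (hR : IsCompact R) :
    ∃ κ : ℝ, 0 < κ ∧ ∀ c ∈ R, (∀ μ ∈ S, ∀ l < s, μ.ρ ≤ ww Φ n μ.l μ.P l c) →
      ∃ l < s, ∀ μ ∈ S, μ.ρ + κ ≤ ww Φ n μ.l μ.P l c := by
  have hn0 : 0 ≤ n := by linarith
  set R' : Set X := R ∩ {c | ∀ μ ∈ S, ∀ l < s, μ.ρ ≤ ww Φ n μ.l μ.P l c} with hR'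
  have hcl : IsClosed {c | ∀ μ ∈ S, ∀ l < s, μ.ρ ≤ ww Φ n μ.l μ.P l c} := by
    have : {c | ∀ μ ∈ S, ∀ l < s, μ.ρ ≤ ww Φ n μ.l μ.P l c} =
        ⋂ μ ∈ S, ⋂ l ∈ {l : ℕ | l < s}, {c | μ.ρ ≤ ww Φ n μ.l μ.P l c} := by
      ext c
      simp
    rw [this]
    refine isClosed_biInter fun μ hμ => isClosed_biInter fun l hl => ?_
    exact isClosed_le continuous_const (ww_cont hΦ hn0 (hS.llt μ hμ) hl _)
  have hcp : IsCompact R' := hR.inter_right hcl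
  set U : ℕ → Set X := fun j => {c | ∃ l < s, ∀ μ ∈ S, μ.ρ + 1 / ((j : ℝ) + 1) <
    ww Φ n μ.l μ.P l c} with hU
  have hop : ∀ j, IsOpen (U j) := by
    intro j
    have : U j = ⋃ l ∈ {l : ℕ | l < s}, ⋂ μ ∈ S, {c | μ.ρ + 1 / ((j : ℝ) + 1) <
        ww Φ n μ.l μ.P l c} := by
      ext c
      simp [hU]
    rw [this]
    refine isOpen_biUnion fun l hl => hS.fin.isOpen_biInter fun μ hμ => ?_
    exact isOpen_lt continuous_const (ww_cont hΦ hn0 (hS.llt μ hμ) hl _)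
  have hmono : ∀ i j, i ≤ j → U i ⊆ U j := by
    intro i j hij c hc
    obtain ⟨l, hl, h⟩ := hc
    refine ⟨l, hl, fun μ hμ => lt_of_le_of_lt ?_ (h μ hμ)⟩
    have : (1 : ℝ) / ((j : ℝ) + 1) ≤ 1 / ((i : ℝ) + 1) := by
      have h1 : (i : ℝ) ≤ j := by exact_mod_cast hij
      exact one_div_le_one_div_of_le (by positivity) (by linarith)
    linarith
  have hcov : R' ⊆ ⋃ j, U j := by
    rintro c ⟨_, hc⟩
    obtain ⟨l, hl, h⟩ := free_block hΦ hn hQ hS hc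
    have h1 : ∀ μ ∈ S, ∃ j : ℕ, μ.ρ + 1 / ((j : ℝ) + 1) < ww Φ n μ.l μ.P l c := by
      intro μ hμ
      obtain ⟨j, hj⟩ := exists_nat_one_div_lt (sub_pos.2 (h μ hμ))
      exact ⟨j, by linarith⟩
    choose! f hf using h1
    obtain ⟨N, hN⟩ := (hS.fin.image f).bddAbove
    refine Set.mem_iUnion.2 ⟨N, l, hl, fun μ hμ => lt_of_le_of_lt ?_ (hf μ hμ)⟩
    have h2 : f μ ≤ N := hN ⟨μ, hμ, rfl⟩
    have : (1 : ℝ) / ((N : ℝ) + 1) ≤ 1 / ((f μ : ℝ) + 1) := by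
      have h1 : (f μ : ℝ) ≤ N := by exact_mod_cast h2
      exact one_div_le_one_div_of_le (by positivity) (by linarith)
    linarith
  obtain ⟨j, hj⟩ := hcp.elim_directed_cover U hop hcov fun i j =>
    ⟨max i j, hmono _ _ (le_max_left _ _), hmono _ _ (le_max_right _ _)⟩
  refine ⟨1 / ((j : ℝ) + 1), by positivity, fun c hc hc' => ?_⟩
  obtain ⟨l, hl, h⟩ := hj ⟨hc, hc'⟩
  exact ⟨l, hl, fun μ hμ => (h μ hμ).le⟩

theorem gpmono {S S' : Set (Mk X)} (h : GP Φ n s S) (hS : S' ⊆ S) : GP Φ n s S' :=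
  fun J h1 h2 h3 h4 => h J (fun x hx => hS (h1 x hx)) h2 h3 h4

/-- General position of one more marker. -/
theorem gp_add (hΦ : PFl X Φ) (hn : 0 ≤ n) {S : Set (Mk X)} (hfin : S.Finite)
    (hS : GP Φ n s S) (k : ℕ) {l : ℕ} (hl : l < s) (P : Set X) {r : ℝ} (hr : 0 < r) :
    ∃ ρ : ℝ, 0 < ρ ∧ ρ < r ∧ GP Φ n s (insert ⟨k, l, P, ρ⟩ S) := by
  classical
  obtain ⟨κ, hκ1, hκ⟩ := hΦ.lip (LL s n)
  set T : Finset (Mk X × ℕ) := hfin.toFinset ×ˢ Finset.range s with hT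
  set good : Finset (Mk X × ℕ) → Prop := fun J => J ⊆ T ∧ (∀ x ∈ J, ∀ y ∈ J, x.1 = y.1 → x = y) ∧
    J.card < s with hgood
  have hnull : ∀ J, good J → ∀ l' ∈ Finset.range s, volume {ρ : ℝ | ¬ NullD
      (fun x y : X => dist x y) (s - (J.card + 1)) ({c | ∀ x ∈ J, ww Φ n x.1.l x.1.P x.2 c =
        x.1.ρ} ∩ {c | ww Φ n l P l' c = ρ})} = 0 := by
    rintro J ⟨h1, h2, h3⟩ l' hl'
    have h4 := hS J (fun x hx => by
        have := h1 hx
        rw [hT, Finset.mem_product] at this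
        exact hfin.mem_toFinset.1 this.1) (fun x hx => by
        have := h1 hx
        rw [hT, Finset.mem_product] at this
        exact Finset.mem_range.1 this.2) h2 h3.le
    rw [show s - J.card = s - (J.card + 1) + 1 by omega] at h4
    exact nullD_slice h4 (by linarith : (0 : ℝ) < κ)
      (fun x y => ww_dist hΦ hn hκ hl (Finset.mem_range.1 hl') P x y)
  set bad : Set ℝ := ⋃ J ∈ {J : Finset (Mk X × ℕ) | good J}, ⋃ l' ∈ (Finset.range s : Set ℕ),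
    {ρ : ℝ | ¬ NullD (fun x y : X => dist x y) (s - (J.card + 1))
      ({c | ∀ x ∈ J, ww Φ n x.1.l x.1.P x.2 c = x.1.ρ} ∩ {c | ww Φ n l P l' c = ρ})} with hbad
  have hfinJ : {J : Finset (Mk X × ℕ) | good J}.Finite := by
    refine Set.Finite.subset (Finset.finite_toSet T.powerset) fun J hJ => ?_
    rw [Finset.mem_coe, Finset.mem_powerset]
    exact hJ.1
  have hb0 : volume bad = 0 := by
    rw [hbad, measure_biUnion_null_iff hfinJ.countable]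
    intro J hJ
    rw [measure_biUnion_null_iff (Finset.countable_toSet _)]
    intro l' hl'
    exact hnull J hJ l' hl'
  obtain ⟨ρ, hρ1, hρ2⟩ : ∃ ρ ∈ Set.Ioo 0 r, ρ ∉ bad := by
    by_contra hcon
    push Not at hcon
    have h1 : volume (Set.Ioo 0 r) ≤ volume bad := measure_mono fun ρ hρ => hcon ρ hρ
    rw [hb0, Real.volume_Ioo, sub_zero, nonpos_iff_eq_zero, ENNReal.ofReal_eq_zero] at h1
    linarith
  refine ⟨ρ, hρ1.1, hρ1.2, ?_⟩
  intro J h1 h2 h3 h4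
  by_cases hnew : ∃ x ∈ J, x.1 ∉ S
  · obtain ⟨x₀, hx₀, hx₀'⟩ := hnew
    have hx₁ : x₀.1 = ⟨k, l, P, ρ⟩ := (Set.mem_insert_iff.1 (h1 x₀ hx₀)).resolve_right hx₀'
    have h5 : ∀ x ∈ J.erase x₀, x.1 ∈ S := by
      intro x hx
      rw [Finset.mem_erase] at hx
      rcases Set.mem_insert_iff.1 (h1 x hx.2) with h | h
      · exact absurd (h3 x hx.2 x₀ hx₀ (h.trans hx₁.symm)) hx.1
      · exact h
    have hcard : (J.erase x₀).card + 1 = J.card := Finset.card_erase_add_one hx₀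
    have hg : good (J.erase x₀) := by
      refine ⟨fun x hx => ?_, fun x hx y hy => h3 x (Finset.mem_of_mem_erase hx) y
        (Finset.mem_of_mem_erase hy), by omega⟩
      rw [hT, Finset.mem_product]
      exact ⟨hfin.mem_toFinset.2 (h5 x hx),
        Finset.mem_range.2 (h2 x (Finset.mem_of_mem_erase hx))⟩
    have h6 : NullD (fun x y : X => dist x y) (s - ((J.erase x₀).card + 1))
        ({c | ∀ x ∈ J.erase x₀, ww Φ n x.1.l x.1.P x.2 c = x.1.ρ} ∩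
          {c | ww Φ n l P x₀.2 c = ρ}) := by
      by_contra hcon
      refine hρ2 ?_
      rw [hbad]
      refine Set.mem_biUnion (show J.erase x₀ ∈ {J : Finset (Mk X × ℕ) | good J} from hg) ?_
      exact Set.mem_biUnion (Finset.mem_coe.2 (Finset.mem_range.2 (h2 x₀ hx₀))) hcon
    rw [hcard] at h6
    refine nullD_mono (fun _ _ => le_rfl) h6 fun c hc => ⟨fun x hx =>
      hc x (Finset.mem_of_mem_erase hx), ?_⟩
    have h7 := hc x₀ hx₀
    rw [hx₁] at h7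
    exact h7
  · push Not at hnew
    exact hS J hnew h2 h3 h4

end Pool.Agent.ZFM
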