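import Pool.Agent.Lib.MP_8f66f0_al_ZF.Null

/-! Project ZERO, part F (marker lemma): time blocks; the functions `vv` and `ww`. -/

set_option autoImplicit false

namespace Pool.Agent.ZFM

open Pool.Agent.ZF

open MeasureTheory Metric Set

section Blocks

variable {n : ℝ} {s l l' : ℕ}

theorem tt_lo (hn : 0 ≤ n) : n + 1 ≤ tt n l := by
  unfold tt
  have : 0 ≤ (2 * n + 2) * (l : ℝ) := by positivity
  linarith

theorem tt_hi (hn : 0 ≤ n) (hl : l < s) : tt n l ≤ LL s n - n - 1 := by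
  unfold tt LL
  have h1 : (l : ℝ) + 1 ≤ s := by exact_mod_cast hl
  have h2 : (2 * n + 2) * ((l : ℝ) + 1) ≤ (2 * n + 2) * s :=
    mul_le_mul_of_nonneg_left h1 (by linarith)
  linarith

theorem blk_lo (hn : 0 ≤ n) {t : ℝ} (ht : t ∈ blk n l) : 1 ≤ t := by
  have := tt_lo (l := l) hn
  have := ht.1
  linarith

theorem blk_hi (hn : 0 ≤ n) (hl : l < s) {t : ℝ} (ht : t ∈ blk n l) : t ≤ LL s n - 1 := by
  have := tt_hi hn hl
  have := ht.2
  linarith

theorem blk_tt (hn : 0 ≤ n) (hl : l < s) (hl' : l' < s) {t : ℝ} (ht : t ∈ blk n l') :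
    |t - tt n l| ≤ LL s n := by
  have h1 := blk_lo hn ht
  have h2 := blk_hi hn hl' ht
  have h3 := tt_lo (l := l) hn
  have h4 := tt_hi hn hl
  rw [abs_le]
  constructor <;> linarith

theorem tt_far (hn : 0 ≤ n) (h : l ≠ l') : 2 * n + 2 ≤ |tt n l - tt n l'| := by
  unfold tt
  have h1 : (1 : ℝ) ≤ |(l : ℝ) - l'| := by
    have : (1 : ℤ) ≤ |(l : ℤ) - l'| := Int.one_le_abs (sub_ne_zero.2 (by exact_mod_cast h))
    exact_mod_cast this
  have h2 : (2 * n + 2) * (l : ℝ) + n + 1 - ((2 * n + 2) * (l' : ℝ) + n + 1) =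
      (2 * n + 2) * ((l : ℝ) - l') := by ring
  rw [h2, abs_mul, abs_of_nonneg (by linarith : (0 : ℝ) ≤ 2 * n + 2)]
  have h3 : (2 * n + 2) * 1 ≤ (2 * n + 2) * |(l : ℝ) - l'| :=
    mul_le_mul_of_nonneg_left h1 (by linarith)
  linarith

theorem blk_far (hn : 0 ≤ n) (h : l ≠ l') {t t' : ℝ} (ht : t ∈ blk n l) (ht' : t' ∈ blk n l') :
    2 ≤ |t - t'| := by
  have h1 := tt_far hn h
  have h2 : |tt n l - tt n l'| ≤ |tt n l - t| + |t - t'| + |t' - tt n l'| := by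
    have e1 := abs_add_le (tt n l - t + (t - t')) (t' - tt n l')
    have e2 := abs_add_le (tt n l - t) (t - t')
    have e3 : tt n l - t + (t - t') + (t' - tt n l') = tt n l - tt n l' := by ring
    rw [e3] at e1
    linarith
  have h3 : |tt n l - t| ≤ n := by
    have := ht.1
    have := ht.2
    rw [abs_le]
    constructor <;> linarith
  have h4 : |t' - tt n l'| ≤ n := by
    have := ht'.1
    have := ht'.2
    rw [abs_le]
    constructor <;> linarith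
  linarith

theorem tt_mem (hn : 0 ≤ n) : tt n l ∈ blk n l := by
  constructor <;> linarith

theorem tt_add_mem {t : ℝ} (ht : |t| ≤ n) : tt n l + t ∈ blk n l := by
  rw [abs_le] at ht
  constructor <;> linarith [ht.1, ht.2]

theorem LL_nonneg (hn : 0 ≤ n) : 0 ≤ LL s n := by
  unfold LL
  positivity

end Blocks

section Fun

variable {X : Type} [PseudoMetricSpace X] {Φ : ℝ → X → X} {n : ℝ} {s : ℕ}

theorem pback (hΦ : PFl X Φ) (t : ℝ) (c : X) : Φ (-t) (Φ t c) = c := by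
  rw [← hΦ.add, neg_add_cancel, hΦ.zero]

theorem inf_pt (P : Set X) (x y : X) : |infDist x P - infDist y P| ≤ dist x y := by
  have h1 := infDist_le_infDist_add_dist (s := P) (x := x) (y := y)
  have h2 := infDist_le_infDist_add_dist (s := P) (x := y) (y := x)
  rw [dist_comm y x] at h2
  rw [abs_le]
  constructor <;> linarith

theorem vv_nonneg (l : ℕ) (P : Set X) (c : X) : 0 ≤ vv Φ n l P c := infDist_nonneg

theorem vv_flow (hΦ : PFl X Φ) (l : ℕ) (P : Set X) (t : ℝ) (c : X) :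
    vv Φ n l P (Φ t c) = infDist (Φ (t - tt n l) c) P := by
  unfold vv
  rw [← hΦ.add, neg_add_eq_sub]

theorem vv_time (hΦ : PFl X Φ) (l : ℕ) (P : Set X) (c : X) (t t' : ℝ) :
    |vv Φ n l P (Φ t c) - vv Φ n l P (Φ t' c)| ≤ |t - t'| := by
  rw [vv_flow hΦ, vv_flow hΦ]
  refine (inf_pt _ _ _).trans ((hΦ.tim _ _ _).trans (le_of_eq ?_))
  congr 1
  ring

theorem vv_dist (hΦ : PFl X Φ) {T κ : ℝ}
    (hκ : ∀ t c c', |t| ≤ T → dist (Φ t c) (Φ t c') ≤ κ * dist c c') (l : ℕ) (P : Set X)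
    (c c' : X) {t : ℝ} (ht : |t - tt n l| ≤ T) :
    |vv Φ n l P (Φ t c) - vv Φ n l P (Φ t c')| ≤ κ * dist c c' := by
  rw [vv_flow hΦ, vv_flow hΦ]
  exact (inf_pt _ _ _).trans (hκ _ _ _ ht)

theorem ww_bdd (l : ℕ) (P : Set X) (l' : ℕ) (c : X) :
    BddBelow ((fun t => vv Φ n l P (Φ t c)) '' blk n l') :=
  ⟨0, by rintro _ ⟨t, _, rfl⟩; exact vv_nonneg _ _ _⟩

theorem ww_le (l : ℕ) (P : Set X) (l' : ℕ) (c : X) {t : ℝ} (ht : t ∈ blk n l') :
    ww Φ n l P l' c ≤ vv Φ n l P (Φ t c) :=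
  csInf_le (ww_bdd l P l' c) ⟨t, ht, rfl⟩

theorem ww_ex (hΦ : PFl X Φ) (hn : 0 ≤ n) (l : ℕ) (P : Set X) (l' : ℕ) (c : X) :
    ∃ t ∈ blk n l', vv Φ n l P (Φ t c) = ww Φ n l P l' c := by
  have h1 : Continuous fun t => vv Φ n l P (Φ t c) := by
    have : LipschitzWith 1 fun t => vv Φ n l P (Φ t c) := LipschitzWith.of_dist_le_mul
      fun t t' => by
        rw [NNReal.coe_one, one_mul, Real.dist_eq, Real.dist_eq]
        exact vv_time hΦ l P c t t'
    exact this.continuous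
  have h2 : IsCompact ((fun t => vv Φ n l P (Φ t c)) '' blk n l') :=
    isCompact_Icc.image h1
  have h3 : ((fun t => vv Φ n l P (Φ t c)) '' blk n l').Nonempty :=
    ⟨_, tt n l', tt_mem hn, rfl⟩
  obtain ⟨t, ht, h⟩ := h2.sInf_mem h3
  exact ⟨t, ht, h⟩

theorem ww_nonneg (hΦ : PFl X Φ) (hn : 0 ≤ n) (l : ℕ) (P : Set X) (l' : ℕ) (c : X) :
    0 ≤ ww Φ n l P l' c := by
  obtain ⟨t, _, h⟩ := ww_ex hΦ hn l P l' c
  rw [← h]
  exact vv_nonneg _ _ _

theorem ww_dist (hΦ : PFl X Φ) (hn : 0 ≤ n) {κ : ℝ}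
    (hκ : ∀ t c c', |t| ≤ LL s n → dist (Φ t c) (Φ t c') ≤ κ * dist c c') {l l' : ℕ} (hl : l < s)
    (hl' : l' < s) (P : Set X) (c c' : X) :
    |ww Φ n l P l' c - ww Φ n l P l' c'| ≤ κ * dist c c' := by
  have key : ∀ a b : X, ww Φ n l P l' a ≤ ww Φ n l P l' b + κ * dist a b := by
    intro a b
    obtain ⟨t, ht, h⟩ := ww_ex hΦ hn l P l' b
    have h1 := ww_le (Φ := Φ) l P l' a ht
    have h2 := vv_dist hΦ hκ l P a b (blk_tt hn hl hl' ht)
    rw [abs_le] at h2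
    linarith [h2.2]
  have h1 := key c c'
  have h2 := key c' c
  rw [dist_comm c' c] at h2
  rw [abs_le]
  constructor <;> linarith

end Fun

end Pool.Agent.ZFM
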